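import Pool.Agent.H30.GMC.StT

/-!
Modules THET, XTHE, XDEH, XIEX of project GMC.
-/

open AlgebraicGeometry CategoryTheory FCB MvPolynomial
open Pool.Agent.H22.GMC (Coord)

namespace GMC

namespace THX

theorem theta_exists (hA : S_RATA) (hB : S_RATB) (T : Scheme.{0}) [IsIntegral T] (n : ℕ)
    (h : T ⟶ PS n) (hex : ∀ f : T.functionField, ∃ A B, IsRatio h A B f)
    (L : Type) [Field L] (φ : MvPolynomial (Fin (n + 1)) ℂ →+* L)
    (hφ : ∀ p, φ p = 0 ↔ p ∈ PI (h (genericPoint T))) :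
    ∃ θ : T.functionField →+* L, ∀ A B f, IsRatio h A B f → θ f * φ B = φ A := by
  classical
  choose num den hnd using hex
  have hne : ∀ A B f, IsRatio h A B f → φ B ≠ 0 := by
    intro A B f hf
    obtain ⟨d, h1, h2, h3, h4⟩ := hf
    intro h0
    exact h3 ((hφ B).1 h0)
  have key : ∀ A B f, IsRatio h A B f → φ (num f) / φ (den f) = φ A / φ B := by
    intro A B f hf
    have h1 := (((hA T n h).2.1 _ _ _ _ _ _ (hnd f) hf).1 rfl)
    have h2 := (hφ _).2 h1
    rw [map_sub, map_mul, map_mul, sub_eq_zero] at h2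
    rw [div_eq_div_iff (hne _ _ _ (hnd f)) (hne _ _ _ hf)]
    exact h2
  have hone : φ (num 1) / φ (den 1) = 1 := by
    obtain ⟨d, h1, h2, h3, h4⟩ := hnd (1 : T.functionField)
    have h5 := (hB T n h).2.1 d _ h2 h3
    rw [key _ _ _ h5]
    exact div_self (hne _ _ _ h5)
  have hmul : ∀ f g, φ (num (f * g)) / φ (den (f * g)) =
      (φ (num f) / φ (den f)) * (φ (num g) / φ (den g)) := by
    intro f g
    rw [key _ _ _ ((hB T n h).1 _ _ _ _ _ _ (hnd f) (hnd g)).1, map_mul, map_mul]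
    have h1 := hne _ _ _ (hnd f)
    have h2 := hne _ _ _ (hnd g)
    field_simp
  have hadd : ∀ f g, φ (num (f + g)) / φ (den (f + g)) =
      (φ (num f) / φ (den f)) + (φ (num g) / φ (den g)) := by
    intro f g
    rw [key _ _ _ ((hB T n h).1 _ _ _ _ _ _ (hnd f) (hnd g)).2, map_mul, map_add, map_mul,
      map_mul]
    have h1 := hne _ _ _ (hnd f)
    have h2 := hne _ _ _ (hnd g)
    field_simp
  have hzero : φ (num 0) / φ (den 0) = 0 := by
    have h1 := hadd 0 0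
    rw [add_zero] at h1
    exact left_eq_add.1 h1
  let θ : T.functionField →+* L :=
    { toFun := fun f => φ (num f) / φ (den f)
      map_one' := hone
      map_mul' := hmul
      map_zero' := hzero
      map_add' := hadd }
  refine ⟨θ, ?_⟩
  intro A B f hf
  show φ (num f) / φ (den f) * φ B = φ A
  rw [key _ _ _ hf]
  exact div_mul_cancel₀ _ (hne _ _ _ hf)

theorem regAt_generic (T : Scheme.{0}) [IsIntegral T] (f : T.functionField) :
    RegAt (genericPoint T) f := by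
  refine ⟨f, ?_⟩
  show (T.presheaf.stalkSpecializes _).hom f = f
  rw [TopCat.Presheaf.stalkSpecializes_refl]
  rfl

theorem exists_ratio (hR : S_RGEN) (V : PVar) (f : V.X.functionField) :
    ∃ (d : ℕ) (A B : MvPolynomial (Fin (V.n + 1)) ℂ), A ∈ grd V.n d ∧ B ∈ grd V.n d ∧
      B ∉ V.I ∧ IsRatio V.emb A B f :=
  hR V (genericPoint V.X) f (regAt_generic V.X f)

end THX

theorem thet_thm (hP : S_PSB) (hA : S_RATA) (hB : S_RATB) (hR : S_RGEN) : S_THET := by
  intro V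
  have hprime : V.I.IsPrime := (hP V.n).1 _
  obtain ⟨θ, hθ⟩ := THX.theta_exists hA hB V.X V.n V.emb
    (fun f => by
      obtain ⟨d, A, B, h1, h2, h3, h4⟩ := THX.exists_ratio hR V f
      exact ⟨A, B, h4⟩)
    (FractionRing (MvPolynomial (Fin (V.n + 1)) ℂ ⧸ V.I))
    ((algebraMap (MvPolynomial (Fin (V.n + 1)) ℂ ⧸ V.I)
      (FractionRing (MvPolynomial (Fin (V.n + 1)) ℂ ⧸ V.I))).comp (Ideal.Quotient.mk V.I))
    (by
      intro p
      rw [RingHom.comp_apply, IsFractionRing.to_map_eq_zero_iff, Ideal.Quotient.eq_zero_iff_mem]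
      rfl)
  exact ⟨θ, hθ⟩

theorem xthe_thm (hA : S_RATA) (hB : S_RATB) (hR : S_RGEN) : S_XTHE := by
  intro M
  obtain ⟨θ, hθ⟩ := THX.theta_exists hA hB M.X 9 M.emb
    (fun f => by
      obtain ⟨d, A, B, h1, h2, h3, h4⟩ := THX.exists_ratio hR M.V f
      exact ⟨A, B, h4⟩)
    (FractionRing (MvPolynomial (Fin 4) ℂ))
    ((algebraMap (MvPolynomial (Fin 4) ℂ)
      (FractionRing (MvPolynomial (Fin 4) ℂ))).comp rho.toRingHom)
    (by
      intro p
      rw [RingHom.comp_apply, IsFractionRing.to_map_eq_zero_iff, M.gen]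
      rfl)
  exact ⟨θ, hθ⟩

namespace THX

theorem eval_weighted {L : Type} [CommRing L] (ψ : ℂ →+* L) {σ : Type} (w : σ → ℕ) (N : ℕ)
    (P : MvPolynomial σ ℂ) (hP : IsWeightedHomogeneous w P N) (g : σ → L) (t : L) :
    eval₂ ψ (fun k => g k * t ^ w k) P = eval₂ ψ g P * t ^ N := by
  classical
  refine IsWeightedHomogeneous.induction_on
    (motive := fun P _ => eval₂ ψ (fun k => g k * t ^ w k) P = eval₂ ψ g P * t ^ N)
    ?_ ?_ ?_ hP
  · simp
  · intro P Q hP hQ h1 h2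
    rw [eval₂_add, eval₂_add, h1, h2, add_mul]
  · intro d r hd
    rw [eval₂_monomial, eval₂_monomial, mul_assoc]
    congr 1
    rw [Finsupp.prod, Finsupp.prod, ← hd, Finsupp.weight_apply, Finsupp.sum,
      ← Finset.prod_pow_eq_pow_sum, ← Finset.prod_mul_distrib]
    refine Finset.prod_congr rfl fun k _ => ?_
    rw [mul_pow, ← pow_mul, smul_eq_mul, mul_comm (d k)]

theorem mon_ne (a : Coord 2) : mon a ≠ 0 := by
  rcases a with _ | ⟨i, j⟩
  · exact X_ne_zero _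
  · exact mul_ne_zero (X_ne_zero _) (X_ne_zero _)

theorem rho_Q (a : Coord 2) : rho (Q a) = mon a := by
  rw [rho, Q, aeval_X, Equiv.apply_symm_apply]

theorem Q_notMem (M : XData) (a : Coord 2) : Q a ∉ PI (M.emb (genericPoint M.X)) := by
  rw [M.gen, IX, RingHom.mem_ker]
  intro h
  exact mon_ne a ((rho_Q a).symm.trans h)

theorem Q_mem (a : Coord 2) : Q a ∈ grd 9 1 := isHomogeneous_X ℂ _

theorem Qc_mem (q : Fin 4) : Qc q ∈ grd 9 1 := by
  fin_cases q <;> exact Q_mem _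

theorem Qc_ne (M : XData) (q : Fin 4) : Qc q ∉ PI (M.emb (genericPoint M.X)) := by
  fin_cases q <;> exact Q_notMem M _

theorem hc_ch (i : Fin 3) : hc i (ch i) = 1 := by
  fin_cases i <;> rfl

theorem rho_Qc (i : Fin 3) : rho (Qc (ch i)) = X (ch i) ^ 2 := by
  fin_cases i
  · show rho (Q (some (0, 0))) = _
    rw [rho_Q, sq]
    rfl
  · show rho (Q (some (1, 1))) = _
    rw [rho_Q, sq]
    rfl
  · show rho (Q (some (2, 2))) = _
    rw [rho_Q, sq]
    rfl

theorem dh_Qc (i : Fin 3) : dh i (Qc (ch i)) = 1 := by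
  show aeval (hc i) (rho (Qc (ch i))) = 1
  rw [rho_Qc, map_pow, aeval_X, hc_ch, one_pow]

/-- every variable of the chart is the dehomogenisation of a coordinate -/
theorem exists_var (i k : Fin 3) : ∃ a : Coord 2, dh i (Q a) = X k := by
  have h1 : ∀ a : Coord 2, dh i (Q a) = aeval (hc i) (mon a) := by
    intro a
    show aeval (hc i) (rho (Q a)) = _
    rw [rho_Q]
  fin_cases i <;> fin_cases k
  · exact ⟨some (0, 1), by rw [h1]; simp [mon, hc]⟩
  · exact ⟨some (0, 2), by rw [h1]; simp [mon, hc]⟩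
  · exact ⟨none, by rw [h1]; simp [mon, hc]⟩
  · exact ⟨some (0, 1), by rw [h1]; simp [mon, hc]⟩
  · exact ⟨some (1, 2), by rw [h1]; simp [mon, hc]⟩
  · exact ⟨none, by rw [h1]; simp [mon, hc]⟩
  · exact ⟨some (0, 2), by rw [h1]; simp [mon, hc]⟩
  · exact ⟨some (1, 2), by rw [h1]; simp [mon, hc]⟩
  · exact ⟨none, by rw [h1]; simp [mon, hc]⟩

theorem dh_surj (i : Fin 3) (F : MvPolynomial (Fin 3) ℂ) :
    ∃ (d : ℕ), ∃ A ∈ grd 9 d, dh i A = F := by
  induction F using MvPolynomial.induction_on with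
  | C z =>
    refine ⟨0, C z, isHomogeneous_C _ _, ?_⟩
    rw [← algebraMap_eq, AlgHom.commutes]
    rfl
  | add p q hp hq =>
    obtain ⟨d, A, hA, rfl⟩ := hp
    obtain ⟨e, B, hB, rfl⟩ := hq
    refine ⟨d + e, A * Qc (ch i) ^ e + Qc (ch i) ^ d * B, ?_, ?_⟩
    · refine IsHomogeneous.add ?_ ?_
      · have h2 : IsHomogeneous (Qc (ch i) ^ e) (1 * e) := IsHomogeneous.pow (Qc_mem (ch i)) e
        rw [one_mul] at h2
        exact IsHomogeneous.mul hA h2
      · have h2 : IsHomogeneous (Qc (ch i) ^ d) (1 * d) := IsHomogeneous.pow (Qc_mem (ch i)) d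
        rw [one_mul] at h2
        exact IsHomogeneous.mul h2 hB
    · rw [map_add, map_mul, map_mul, map_pow, map_pow, dh_Qc, one_pow, one_pow, mul_one, one_mul]
  | mul_X p k hp =>
    obtain ⟨d, A, hA, rfl⟩ := hp
    obtain ⟨a, ha⟩ := exists_var i k
    exact ⟨d + 1, A * Q a, IsHomogeneous.mul hA (Q_mem a), by rw [map_mul, ha]⟩

/-- the field of fractions of the homogeneous coordinate ring -/
abbrev K4 : Type := FractionRing (MvPolynomial (Fin 4) ℂ)

/-- the inclusion -/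
noncomputable abbrev io : MvPolynomial (Fin 4) ℂ →+* K4 := algebraMap _ _

theorem io_X (k : Fin 4) : io (X k) ≠ 0 := by
  intro h
  rw [IsFractionRing.to_map_eq_zero_iff] at h
  exact X_ne_zero _ h

/-- the values of `θ` on the coordinates -/
theorem theta_xi (M : XData) (ξ : Fin 3 → M.X.functionField) (hξ : M.IsXi ξ)
    (θ : M.X.functionField →+* K4)
    (hθ : ∀ (A B : MvPolynomial (Fin 10) ℂ) (f : M.X.functionField), IsRatio M.emb A B f →
      θ f * io (rho B) = io (rho A)) (i : Fin 3) (k : Fin 4) :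
    eval₂ (θ.comp (ffHom M.str)) (fun j => θ (xi ξ i j)) (hc i k) =
      io (X k) * (io (X (ch i)))⁻¹ ^ wts k := by
  have h0 := hθ _ _ _ hξ.r0
  have h1 := hθ _ _ _ hξ.r1
  have h2 := hθ _ _ _ hξ.r2
  rw [rho_Q, rho_Q] at h0 h1 h2
  simp only [mon, map_mul] at h0 h1 h2
  have x0 := io_X 0
  have x1 := io_X 1
  have x2 := io_X 2
  have x3 := io_X 3
  have e0 : θ (ξ 0) = io (X 1) * (io (X 0))⁻¹ := by
    rw [eq_mul_inv_iff_mul_eq₀ x0]
    apply mul_right_cancel₀ x0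
    rw [mul_assoc]
    refine h0.trans ?_
    rw [mul_comm]
    rfl
  have e1 : θ (ξ 1) = io (X 2) * (io (X 0))⁻¹ := by
    rw [eq_mul_inv_iff_mul_eq₀ x0]
    apply mul_right_cancel₀ x0
    rw [mul_assoc]
    refine h1.trans ?_
    rw [mul_comm]
    rfl
  have e2 : θ (ξ 2) = io (X 3) * (io (X 0))⁻¹ ^ 2 := by
    rw [inv_pow, eq_mul_inv_iff_mul_eq₀ (pow_ne_zero _ x0), sq]
    exact h2
  fin_cases i <;> fin_cases k <;>
    simp [hc, xi, wts, ch, e0, e1, e2] <;> field_simp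

theorem Qc_pow_mem (q : Fin 4) (d : ℕ) : Qc q ^ d ∈ grd 9 d := by
  have h2 : IsHomogeneous (Qc q ^ d) (1 * d) := IsHomogeneous.pow (Qc_mem q) d
  rwa [one_mul] at h2

theorem Qc_pow_ne (M : XData) (i : Fin 3) (d : ℕ) :
    Qc (ch i) ^ d ∉ PI (M.emb (genericPoint M.X)) := by
  rw [M.gen, IX, RingHom.mem_ker, map_pow, rho_Qc]
  exact pow_ne_zero _ (pow_ne_zero _ (X_ne_zero _))

theorem theta_const (hB : S_RATB) (M : XData) (θ : M.X.functionField →+* K4)
    (hθ : ∀ (A B : MvPolynomial (Fin 10) ℂ) (f : M.X.functionField), IsRatio M.emb A B f →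
      θ f * io (rho B) = io (rho A)) :
    θ.comp (ffHom M.str) = io.comp C := by
  ext z
  have h1 := hθ _ _ _ ((hB M.X 9 M.emb).2.2 M.str rfl z)
  rw [map_one, map_one, mul_one] at h1
  rw [RingHom.comp_apply, h1, RingHom.comp_apply, ← algebraMap_eq, AlgHom.commutes]
  rfl

theorem theta_aeval (hB : S_RATB) (hI : S_XIDL) (M : XData) (ξ : Fin 3 → M.X.functionField)
    (hξ : M.IsXi ξ) (θ : M.X.functionField →+* K4)
    (hθ : ∀ (A B : MvPolynomial (Fin 10) ℂ) (f : M.X.functionField), IsRatio M.emb A B f →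
      θ f * io (rho B) = io (rho A)) (i : Fin 3) (d : ℕ) (A : MvPolynomial (Fin 10) ℂ)
    (hA : A ∈ grd 9 d) :
    θ (eval₂ (ffHom M.str) (xi ξ i) (dh i A)) = io (rho A) * (io (X (ch i)))⁻¹ ^ (2 * d) := by
  have h1 : θ (eval₂ (ffHom M.str) (xi ξ i) (dh i A)) =
      eval₂ (θ.comp (ffHom M.str)) (fun j => θ (xi ξ i j)) (dh i A) :=
    eval₂_comp_left θ (ffHom M.str) (xi ξ i) (dh i A)
  have h2 : ∀ P : MvPolynomial (Fin 4) ℂ,
      eval₂ (θ.comp (ffHom M.str)) (fun j => θ (xi ξ i j)) (aeval (hc i) P) =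
      eval₂ (θ.comp (ffHom M.str)) (fun k => io (X k) * (io (X (ch i)))⁻¹ ^ wts k) P := by
    intro P
    have h3 : (eval₂Hom (θ.comp (ffHom M.str)) (fun j => θ (xi ξ i j))).comp
        (aeval (R := ℂ) (hc i)).toRingHom =
        eval₂Hom (θ.comp (ffHom M.str)) (fun k => io (X k) * (io (X (ch i)))⁻¹ ^ wts k) := by
      apply MvPolynomial.ringHom_ext
      · intro z
        show eval₂ _ _ (aeval (hc i) (C z)) = eval₂ _ _ (C z)
        rw [← algebraMap_eq, AlgHom.commutes, algebraMap_eq, eval₂_C, algebraMap_eq, eval₂_C]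
      · intro k
        show eval₂ _ _ (aeval (hc i) (X k)) = eval₂ _ _ (X k)
        rw [aeval_X, eval₂_X]
        exact theta_xi M ξ hξ θ hθ i k
    exact RingHom.congr_fun h3 P
  have h4 : dh i A = aeval (hc i) (rho A) := rfl
  rw [h1, h4, h2, eval_weighted _ wts (2 * d) _ (hI.2.2.2.1 d A hA), theta_const hB M θ hθ]
  congr 1
  have h5 := eval₂_comp_left io C X (rho A)
  rw [eval₂_eta] at h5
  exact h5.symm

end THX

theorem xdeh_thm (hA : S_RATA) (hB : S_RATB) (hI : S_XIDL) (hT : S_XTHE) : S_XDEH := by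
  intro M ξ hξ i
  refine ⟨?_, THX.dh_surj i⟩
  intro d A hAd
  obtain ⟨θ, hθ⟩ := hT M
  obtain ⟨f, hf⟩ := (hA M.X 9 M.emb).1 d A (Qc (ch i) ^ d) hAd (THX.Qc_pow_mem _ d)
    (THX.Qc_pow_ne M i d)
  have h1 := hθ _ _ _ hf
  have h2 := THX.theta_aeval hB hI M ξ hξ θ hθ i d A hAd
  have h3 : f = eval₂ (ffHom M.str) (xi ξ i) (dh i A) := by
    apply θ.injective
    rw [h2, ← h1, map_pow, THX.rho_Qc, ← pow_mul, map_pow]
    rw [mul_assoc, ← mul_pow, mul_inv_cancel₀ (THX.io_X (ch i)), one_pow, mul_one]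
  rw [h3] at hf
  exact hf

theorem xiex_thm (hA : S_RATA) (hB : S_RATB) (hR : S_RGEN) (hD : S_XDEH) : S_XIEX := by
  intro M
  constructor
  · have h1 : Q (some (0, 0)) ∉ PI (M.emb (genericPoint M.X)) := THX.Q_notMem M _
    obtain ⟨f0, h0⟩ := (hA M.X 9 M.emb).1 1 (Q (some (0, 1))) (Q (some (0, 0))) (THX.Q_mem _)
      (THX.Q_mem _) h1
    obtain ⟨f1, h1'⟩ := (hA M.X 9 M.emb).1 1 (Q (some (0, 2))) (Q (some (0, 0))) (THX.Q_mem _)
      (THX.Q_mem _) h1
    obtain ⟨f2, h2⟩ := (hA M.X 9 M.emb).1 1 (Q none) (Q (some (0, 0))) (THX.Q_mem _)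
      (THX.Q_mem _) h1
    exact ⟨![f0, f1, f2], ⟨h0, h1', h2⟩⟩
  · intro ξ hξ
    refine ⟨?_, ?_, ?_⟩
    · intro i h0
      fin_cases i
      · exact THX.Q_notMem M _ (((hA M.X 9 M.emb).2.2 _ _ _ hξ.r0).1 h0)
      · exact THX.Q_notMem M _ (((hA M.X 9 M.emb).2.2 _ _ _ hξ.r1).1 h0)
      · exact THX.Q_notMem M _ (((hA M.X 9 M.emb).2.2 _ _ _ hξ.r2).1 h0)
    · intro i F hF
      obtain ⟨d, A, hAd, rfl⟩ := (hD M ξ hξ i).2 F
      have h1 := (hD M ξ hξ i).1 d A hAd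
      have h2 := ((hA M.X 9 M.emb).2.2 _ _ _ h1).1 hF
      rw [M.gen, IX, RingHom.mem_ker] at h2
      show aeval (hc i) (rho A) = 0
      rw [h2, map_zero]
    · intro f
      obtain ⟨d, A, B, h1, h2, h3, h4⟩ := THX.exists_ratio hR M.V f
      have hAr := (hD M ξ hξ 0).1 d A h1
      have hBr := (hD M ξ hξ 0).1 d B h2
      refine ⟨dh 0 A, dh 0 B, ?_, ?_⟩
      · intro h0
        rw [h0, map_zero] at hBr
        exact h3 (((hA M.X 9 M.emb).2.2 _ _ _ hBr).1 rfl)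
      · have h5 := ((hB M.X 9 M.emb).1 _ _ _ _ _ _ h4 hBr).1
        refine ((hA M.X 9 M.emb).2.1 _ _ _ _ _ _ h5 hAr).2 ?_
        have h6 : A * B * Qc (ch 0) ^ d - A * (B * Qc (ch 0) ^ d) = 0 := by ring
        rw [h6]
        exact Ideal.zero_mem _

end GMC
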